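import Pool.Agent.H91.EL.Targets

/-!
End lemma (MP_ee74d2_an, d = 3), row LAG: linear algebra with four null directions.
-/

set_option autoImplicit false

namespace Pool.Agent.H7.EL

open Pool.Agent.H83.G Pool.Agent.H91.EL
open scoped RealInnerProductSpace

/-- three by three determinant, by columns -/
private def m3 (x1 x2 x3 y1 y2 y3 z1 z2 z3 : ℝ) : ℝ :=
  x1 * (y2 * z3 - y3 * z2) - x2 * (y1 * z3 - y3 * z1) + x3 * (y1 * z2 - y2 * z1)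

private theorem mul3 {x y z : ℝ} (hx : |x| ≤ 9) (hy : |y| ≤ 9) (hz : |z| ≤ 9) :
    |x * (y * z)| ≤ 729 := by
  rw [abs_mul, abs_mul]
  have h1 : |y| * |z| ≤ 9 * 9 := mul_le_mul hy hz (abs_nonneg _) (by norm_num)
  have h2 : |x| * (|y| * |z|) ≤ 9 * (9 * 9) := mul_le_mul hx h1 (by positivity) (by norm_num)
  linarith

private theorem m3_le {x1 x2 x3 y1 y2 y3 z1 z2 z3 : ℝ} (hx1 : |x1| ≤ 9) (hx2 : |x2| ≤ 9)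
    (hx3 : |x3| ≤ 9) (hy1 : |y1| ≤ 9) (hy2 : |y2| ≤ 9) (hy3 : |y3| ≤ 9) (hz1 : |z1| ≤ 9)
    (hz2 : |z2| ≤ 9) (hz3 : |z3| ≤ 9) : |m3 x1 x2 x3 y1 y2 y3 z1 z2 z3| ≤ 4374 := by
  have e : m3 x1 x2 x3 y1 y2 y3 z1 z2 z3 = x1 * (y2 * z3) - x1 * (y3 * z2) - x2 * (y1 * z3)
      + x2 * (y3 * z1) + x3 * (y1 * z2) - x3 * (y2 * z1) := by
    unfold m3; ring
  rw [e]
  have t1 := abs_le.1 (mul3 hx1 hy2 hz3)
  have t2 := abs_le.1 (mul3 hx1 hy3 hz2)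
  have t3 := abs_le.1 (mul3 hx2 hy1 hz3)
  have t4 := abs_le.1 (mul3 hx2 hy3 hz1)
  have t5 := abs_le.1 (mul3 hx3 hy1 hz2)
  have t6 := abs_le.1 (mul3 hx3 hy2 hz1)
  rw [abs_le]
  constructor <;> linarith [t1.1, t1.2, t2.1, t2.2, t3.1, t3.2, t4.1, t4.2, t5.1, t5.2, t6.1, t6.2]

/-- four by four determinant, by columns -/
private def d4 (x1 x2 x3 x4 y1 y2 y3 y4 z1 z2 z3 z4 w1 w2 w3 w4 : ℝ) : ℝ :=
  w4 * m3 x1 x2 x3 y1 y2 y3 z1 z2 z3 - w3 * m3 x1 x2 x4 y1 y2 y4 z1 z2 z4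
    + w2 * m3 x1 x3 x4 y1 y3 y4 z1 z3 z4 - w1 * m3 x2 x3 x4 y2 y3 y4 z2 z3 z4

private theorem key {x1 x2 x3 x4 y1 y2 y3 y4 z1 z2 z3 z4 w1 w2 w3 w4 : ℝ} (hx1 : |x1| ≤ 9)
    (hx2 : |x2| ≤ 9) (hx3 : |x3| ≤ 9) (hx4 : |x4| ≤ 9) (hy1 : |y1| ≤ 9) (hy2 : |y2| ≤ 9)
    (hy3 : |y3| ≤ 9) (hy4 : |y4| ≤ 9) (hz1 : |z1| ≤ 9) (hz2 : |z2| ≤ 9) (hz3 : |z3| ≤ 9)
    (hz4 : |z4| ≤ 9) (hx hy hz hw p1 p2 p3 p4 ε₁ ε₄ : ℝ)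
    (e1 : hx * x1 + hy * y1 + hz * z1 + hw * w1 = p1)
    (e2 : hx * x2 + hy * y2 + hz * z2 + hw * w2 = p2)
    (e3 : hx * x3 + hy * y3 + hz * z3 + hw * w3 = p3)
    (e4 : hx * x4 + hy * y4 + hz * z4 + hw * w4 = p4)
    (b1 : |p1| ≤ ε₁) (b2 : |p2| ≤ ε₁) (b3 : |p3| ≤ ε₁) (b4 : |p4| ≤ ε₄) :
    |hw| * |d4 x1 x2 x3 x4 y1 y2 y3 y4 z1 z2 z3 z4 w1 w2 w3 w4| ≤ 4374 * (3 * ε₁ + ε₄) ∧
    |m3 x1 x2 x3 y1 y2 y3 z1 z2 z3| * |p4| ≤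
      |hw| * |d4 x1 x2 x3 x4 y1 y2 y3 y4 z1 z2 z3 z4 w1 w2 w3 w4| + 4374 * (3 * ε₁) := by
  have id1 : m3 x1 x2 x3 y1 y2 y3 z1 z2 z3 * p4 - m3 x1 x2 x4 y1 y2 y4 z1 z2 z4 * p3
      + m3 x1 x3 x4 y1 y3 y4 z1 z3 z4 * p2 - m3 x2 x3 x4 y2 y3 y4 z2 z3 z4 * p1
      = hw * d4 x1 x2 x3 x4 y1 y2 y3 y4 z1 z2 z3 z4 w1 w2 w3 w4 := by
    rw [← e1, ← e2, ← e3, ← e4]
    unfold d4 m3
    ring
  have q4 : |m3 x1 x2 x3 y1 y2 y3 z1 z2 z3 * p4| ≤ 4374 * ε₄ := by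
    rw [abs_mul]
    exact mul_le_mul (m3_le hx1 hx2 hx3 hy1 hy2 hy3 hz1 hz2 hz3) b4 (abs_nonneg _) (by norm_num)
  have q3 : |m3 x1 x2 x4 y1 y2 y4 z1 z2 z4 * p3| ≤ 4374 * ε₁ := by
    rw [abs_mul]
    exact mul_le_mul (m3_le hx1 hx2 hx4 hy1 hy2 hy4 hz1 hz2 hz4) b3 (abs_nonneg _) (by norm_num)
  have q2 : |m3 x1 x3 x4 y1 y3 y4 z1 z3 z4 * p2| ≤ 4374 * ε₁ := by
    rw [abs_mul]
    exact mul_le_mul (m3_le hx1 hx3 hx4 hy1 hy3 hy4 hz1 hz3 hz4) b2 (abs_nonneg _) (by norm_num)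
  have q1 : |m3 x2 x3 x4 y2 y3 y4 z2 z3 z4 * p1| ≤ 4374 * ε₁ := by
    rw [abs_mul]
    exact mul_le_mul (m3_le hx2 hx3 hx4 hy2 hy3 hy4 hz2 hz3 hz4) b1 (abs_nonneg _) (by norm_num)
  rw [← abs_mul, ← abs_mul]
  have r1 := abs_le.1 q1
  have r2 := abs_le.1 q2
  have r3 := abs_le.1 q3
  have r4 := abs_le.1 q4
  constructor
  · rw [← id1, abs_le]
    constructor <;> linarith [r1.1, r1.2, r2.1, r2.2, r3.1, r3.2, r4.1, r4.2]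
  · have r5 := abs_le.1 (le_refl |hw * d4 x1 x2 x3 x4 y1 y2 y3 y4 z1 z2 z3 z4 w1 w2 w3 w4|)
    rw [abs_le]
    constructor <;> linarith [r1.1, r1.2, r2.1, r2.2, r3.1, r3.2, r5.1, r5.2]

private theorem big {s c0 c1 c2 c3 : ℝ} (hs : 0 < s)
    (hlow : s ^ 6 ≤ c1 ^ 2 + c2 ^ 2 + 4 * (c0 * c3)) :
    s ^ 3 ≤ 3 * |c0| ∨ s ^ 3 ≤ 3 * |c1| ∨ s ^ 3 ≤ 3 * |c2| ∨ s ^ 3 ≤ 3 * |c3| := by
  by_contra hcon
  push Not at hcon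
  obtain ⟨u0, u1, u2, u3⟩ := hcon
  have v : ∀ c : ℝ, 3 * |c| < s ^ 3 → 9 * c ^ 2 < s ^ 6 := by
    intro c hc
    have h1 : (3 * |c|) ^ 2 < (s ^ 3) ^ 2 := pow_lt_pow_left₀ hc (by positivity) (by norm_num)
    rw [mul_pow, sq_abs, ← pow_mul] at h1
    norm_num at h1
    exact h1
  have v0 := v c0 u0
  have v1 := v c1 u1
  have v2 := v c2 u2
  have v3 := v c3 u3
  have e : (c0 - c3) ^ 2 = c0 ^ 2 + c3 ^ 2 - 2 * (c0 * c3) := by ring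
  have e' := sq_nonneg (c0 - c3)
  have e'' : 0 < s ^ 6 := by positivity
  linarith

/-- the real variable form -/
private theorem main (a1 a2 a3 a b1 b2 b3 b : ℝ) (n0 n1 n2 n3 g0 g1 g2 g3 : ℝ) (κ M ε s : ℝ)
    (h1 : a1 ^ 2 + b1 ^ 2 ≤ 9) (h2 : a2 ^ 2 + b2 ^ 2 ≤ 9) (h3 : a3 ^ 2 + b3 ^ 2 ≤ 9)
    (h4 : a ^ 2 + b ^ 2 ≤ 9) (hs : 0 < s) (s12 : s ^ 2 ≤ (a1 - a2) ^ 2 + (b1 - b2) ^ 2)
    (s13 : s ^ 2 ≤ (a1 - a3) ^ 2 + (b1 - b3) ^ 2) (s23 : s ^ 2 ≤ (a2 - a3) ^ 2 + (b2 - b3) ^ 2)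
    (hn : 1 / 2 ≤ |n0| ∨ 1 / 2 ≤ |n1| ∨ 1 / 2 ≤ |n2| ∨ 1 / 2 ≤ |n3|)
    (k1 : |n0 + n1 * a1 + n2 * b1 + n3 * (a1 ^ 2 + b1 ^ 2)| ≤ κ)
    (k2 : |n0 + n1 * a2 + n2 * b2 + n3 * (a2 ^ 2 + b2 ^ 2)| ≤ κ)
    (k3 : |n0 + n1 * a3 + n2 * b3 + n3 * (a3 ^ 2 + b3 ^ 2)| ≤ κ)
    (k4 : |n0 + n1 * a + n2 * b + n3 * (a ^ 2 + b ^ 2)| ≤ κ)
    (m0 : |g0| ≤ M) (m1 : |g1| ≤ M) (m2 : |g2| ≤ M) (m3' : |g3| ≤ M)
    (l1 : |g0 + g1 * a1 + g2 * b1 + g3 * (a1 ^ 2 + b1 ^ 2)| ≤ ε)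
    (l2 : |g0 + g1 * a2 + g2 * b2 + g3 * (a2 ^ 2 + b2 ^ 2)| ≤ ε)
    (l3 : |g0 + g1 * a3 + g2 * b3 + g3 * (a3 ^ 2 + b3 ^ 2)| ≤ ε) :
    |g0 + g1 * a + g2 * b + g3 * (a ^ 2 + b ^ 2)| ≤ 200000 * (M * κ + ε) / s ^ 3 := by
  have bd : ∀ x y : ℝ, x ^ 2 + y ^ 2 ≤ 9 → |x| ≤ 9 ∧ |y| ≤ 9 ∧ |x ^ 2 + y ^ 2| ≤ 9 := by
    intro x y h
    have hx := sq_nonneg x
    have hy := sq_nonneg y
    have hx9 : |x| ≤ 9 := abs_le_of_sq_le_sq (by linarith) (by norm_num)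
    have hy9 : |y| ≤ 9 := abs_le_of_sq_le_sq (by linarith) (by norm_num)
    exact ⟨hx9, hy9, by rw [abs_of_nonneg (by linarith)]; exact h⟩
  have one9 : |(1 : ℝ)| ≤ 9 := by norm_num
  obtain ⟨A1, B1, Q1⟩ := bd a1 b1 h1
  obtain ⟨A2, B2, Q2⟩ := bd a2 b2 h2
  obtain ⟨A3, B3, Q3⟩ := bd a3 b3 h3
  obtain ⟨A4, B4, Q4⟩ := bd a b h4
  set q1 := a1 ^ 2 + b1 ^ 2 with hq1
  set q2 := a2 ^ 2 + b2 ^ 2 with hq2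
  set q3 := a3 ^ 2 + b3 ^ 2 with hq3
  set q := a ^ 2 + b ^ 2 with hq
  -- the four cofactors
  set c3 := m3 1 1 1 a1 a2 a3 b1 b2 b3 with hc3
  set c0 := m3 q1 q2 q3 a1 a2 a3 b1 b2 b3 with hc0
  set c1 := m3 1 1 1 q1 q2 q3 b1 b2 b3 with hc1
  set c2 := m3 1 1 1 a1 a2 a3 q1 q2 q3 with hc2
  -- the determinant
  set Δ := d4 1 1 1 1 a1 a2 a3 a b1 b2 b3 b q1 q2 q3 q with hΔ
  have Δ0 : |d4 q1 q2 q3 q a1 a2 a3 a b1 b2 b3 b 1 1 1 1| = |Δ| := by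
    rw [← abs_neg]; congr 1; rw [hΔ]; unfold d4 m3; ring
  have Δ1 : |d4 1 1 1 1 q1 q2 q3 q b1 b2 b3 b a1 a2 a3 a| = |Δ| := by
    rw [← abs_neg]; congr 1; rw [hΔ]; unfold d4 m3; ring
  have Δ2 : |d4 1 1 1 1 a1 a2 a3 a q1 q2 q3 q b1 b2 b3 b| = |Δ| := by
    rw [← abs_neg]; congr 1; rw [hΔ]; unfold d4 m3; ring
  have hκ : 0 ≤ κ := (abs_nonneg _).trans k1
  have hε : 0 ≤ ε := (abs_nonneg _).trans l1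
  have hM : 0 ≤ M := (abs_nonneg _).trans m0
  -- the determinant is small
  have hΔs : |Δ| ≤ 34992 * κ := by
    have fin : ∀ t : ℝ, 1 / 2 ≤ |t| → |t| * |Δ| ≤ 4374 * (3 * κ + κ) → |Δ| ≤ 34992 * κ := by
      intro t ht h
      have : 1 / 2 * |Δ| ≤ |t| * |Δ| := mul_le_mul_of_nonneg_right ht (abs_nonneg _)
      linarith
    rcases hn with hn | hn | hn | hn
    · have := (key (w1 := 1) (w2 := 1) (w3 := 1) (w4 := 1) Q1 Q2 Q3 Q4 A1 A2 A3 A4 B1 B2 B3 B4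
        n3 n1 n2 n0 _ _ _ _ κ κ (by ring) (by ring) (by ring) (by ring) k1 k2 k3 k4).1
      rw [Δ0] at this
      exact fin _ hn this
    · have := (key (w1 := a1) (w2 := a2) (w3 := a3) (w4 := a) one9 one9 one9 one9 Q1 Q2 Q3 Q4
        B1 B2 B3 B4 n0 n3 n2 n1 _ _ _ _ κ κ (by ring) (by ring) (by ring) (by ring)
        k1 k2 k3 k4).1
      rw [Δ1] at this
      exact fin _ hn this
    · have := (key (w1 := b1) (w2 := b2) (w3 := b3) (w4 := b) one9 one9 one9 one9 A1 A2 A3 A4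
        Q1 Q2 Q3 Q4 n0 n1 n3 n2 _ _ _ _ κ κ (by ring) (by ring) (by ring) (by ring)
        k1 k2 k3 k4).1
      rw [Δ2] at this
      exact fin _ hn this
    · have := (key (w1 := q1) (w2 := q2) (w3 := q3) (w4 := q) one9 one9 one9 one9 A1 A2 A3 A4
        B1 B2 B3 B4 n0 n1 n2 n3 _ _ _ _ κ κ (by ring) (by ring) (by ring) (by ring)
        k1 k2 k3 k4).1
      exact fin _ hn this
  -- one cofactor is large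
  have hid : c1 ^ 2 + c2 ^ 2 + 4 * (c0 * c3) = ((a1 - a2) ^ 2 + (b1 - b2) ^ 2) *
      ((a1 - a3) ^ 2 + (b1 - b3) ^ 2) * ((a2 - a3) ^ 2 + (b2 - b3) ^ 2) := by
    rw [hc1, hc2, hc0, hc3, hq1, hq2, hq3]
    unfold m3
    ring
  have hlow : s ^ 6 ≤ c1 ^ 2 + c2 ^ 2 + 4 * (c0 * c3) := by
    rw [hid]
    have e : s ^ 6 = s ^ 2 * s ^ 2 * s ^ 2 := by ring
    rw [e]
    exact mul_le_mul (mul_le_mul s12 s13 (by positivity) (by positivity)) s23 (by positivity)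
      (by positivity)
  have hbig : s ^ 3 ≤ 3 * |c0| ∨ s ^ 3 ≤ 3 * |c1| ∨ s ^ 3 ≤ 3 * |c2| ∨ s ^ 3 ≤ 3 * |c3| := by
    exact big hs hlow
  -- conclusion
  have hs3 : 0 < s ^ 3 := by positivity
  have fin : ∀ c t p : ℝ, s ^ 3 ≤ 3 * |c| → |t| ≤ M → |c| * |p| ≤ |t| * |Δ| + 4374 * (3 * ε) →
      |p| ≤ 200000 * (M * κ + ε) / s ^ 3 := by
    intro c t p hc ht h
    rw [le_div_iff₀ hs3]
    have w1 : |t| * |Δ| ≤ M * (34992 * κ) := mul_le_mul ht hΔs (abs_nonneg _) hM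
    have w2 : |p| * s ^ 3 ≤ |p| * (3 * |c|) := mul_le_mul_of_nonneg_left hc (abs_nonneg _)
    have w3 : 0 ≤ M * κ := by positivity
    have w4 : |p| * (3 * |c|) = 3 * (|c| * |p|) := by ring
    linarith
  rcases hbig with hb | hb | hb | hb
  · have := (key (w1 := 1) (w2 := 1) (w3 := 1) (w4 := 1) Q1 Q2 Q3 Q4 A1 A2 A3 A4 B1 B2 B3 B4
      g3 g1 g2 g0 _ _ _ (g0 + g1 * a + g2 * b + g3 * q) ε _ (by ring) (by ring) (by ring) (by ring) l1 l2 l3 le_rfl).2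
    rw [Δ0] at this
    exact fin _ _ _ hb m0 this
  · have := (key (w1 := a1) (w2 := a2) (w3 := a3) (w4 := a) one9 one9 one9 one9 Q1 Q2 Q3 Q4
      B1 B2 B3 B4 g0 g3 g2 g1 _ _ _ (g0 + g1 * a + g2 * b + g3 * q) ε _ (by ring) (by ring) (by ring) (by ring)
      l1 l2 l3 le_rfl).2
    rw [Δ1] at this
    exact fin _ _ _ hb m1 this
  · have := (key (w1 := b1) (w2 := b2) (w3 := b3) (w4 := b) one9 one9 one9 one9 A1 A2 A3 A4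
      Q1 Q2 Q3 Q4 g0 g1 g3 g2 _ _ _ (g0 + g1 * a + g2 * b + g3 * q) ε _ (by ring) (by ring) (by ring) (by ring)
      l1 l2 l3 le_rfl).2
    rw [Δ2] at this
    exact fin _ _ _ hb m2 this
  · have := (key (w1 := q1) (w2 := q2) (w3 := q3) (w4 := q) one9 one9 one9 one9 A1 A2 A3 A4
      B1 B2 B3 B4 g0 g1 g2 g3 _ _ _ (g0 + g1 * a + g2 * b + g3 * q) ε _ (by ring) (by ring) (by ring) (by ring)
      l1 l2 l3 le_rfl).2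
    exact fin _ _ _ hb m3' this

private theorem nsq (η : E 2) : ‖η‖ ^ 2 = η 0 ^ 2 + η 1 ^ 2 := by
  rw [EuclideanSpace.norm_sq_eq, Fin.sum_univ_two]
  simp

private theorem inn (x y : E 2) : ⟪x, y⟫ = x 0 * y 0 + x 1 * y 1 := by
  rw [PiLp.inner_apply, Fin.sum_univ_two]
  simp
  ring

private theorem qBc (g : Z 2) (η : E 2) :
    qB g (ll η) = 2 * (g.1 + g.2.1 0 * η 0 + g.2.1 1 * η 1 + g.2.2 * (η 0 ^ 2 + η 1 ^ 2)) := by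
  rw [qB_comm, qB_ll, inn, nsq]
  ring

private theorem co (g : Z 2) (M : ℝ) (h : ‖g‖ ≤ M) :
    |g.1| ≤ M ∧ |g.2.1 0| ≤ M ∧ |g.2.1 1| ≤ M ∧ |g.2.2| ≤ M := by
  have hM : 0 ≤ M := (norm_nonneg _).trans h
  have h1 := (norm_y_le g).trans h
  have h2 := nsq g.2.1
  have h3 := norm_nonneg g.2.1
  have h4 : ‖g.2.1‖ ^ 2 ≤ M ^ 2 := by nlinarith
  refine ⟨(norm_fst_le' g).trans h, ?_, ?_, (norm_w_le g).trans h⟩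
  · exact abs_le_of_sq_le_sq (by nlinarith [sq_nonneg (g.2.1 1)]) hM
  · exact abs_le_of_sq_le_sq (by nlinarith [sq_nonneg (g.2.1 0)]) hM

theorem pf_LAG : T_LAG := by
  refine ⟨400000, by norm_num, ?_⟩
  intro η₁ η₂ η₃ η n g κ M ε s e1 e2 e3 e4 hs s12 s13 s23 hn k1 k2 k3 k4 hg l1 l2 l3
  have sq9 : ∀ ζ : E 2, ‖ζ‖ ≤ 3 → ζ 0 ^ 2 + ζ 1 ^ 2 ≤ 9 := by
    intro ζ h
    rw [← nsq]
    nlinarith [norm_nonneg ζ]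
  have sep : ∀ ζ ξ : E 2, s ≤ ‖ζ - ξ‖ → s ^ 2 ≤ (ζ 0 - ξ 0) ^ 2 + (ζ 1 - ξ 1) ^ 2 := by
    intro ζ ξ h
    have := nsq (ζ - ξ)
    simp only [PiLp.sub_apply] at this
    rw [← this]
    nlinarith
  have half : ∀ (h : Z 2) (ζ : E 2) (t : ℝ), |qB h (ll ζ)| ≤ t →
      |h.1 + h.2.1 0 * ζ 0 + h.2.1 1 * ζ 1 + h.2.2 * (ζ 0 ^ 2 + ζ 1 ^ 2)| ≤ t / 2 := by
    intro h ζ t ht
    rw [qBc, abs_mul] at ht
    norm_num at ht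
    linarith
  obtain ⟨m0, m1, m2, m3⟩ := co g M hg
  have hn' : 1 / 2 ≤ |n.1| ∨ 1 / 2 ≤ |n.2.1 0| ∨ 1 / 2 ≤ |n.2.1 1| ∨ 1 / 2 ≤ |n.2.2| := by
    by_contra hcon
    push Not at hcon
    obtain ⟨u0, u1, u2, u3⟩ := hcon
    have v1 : (n.2.1 0) ^ 2 ≤ (1 / 2) ^ 2 := by
      rw [← sq_abs]
      exact pow_le_pow_left₀ (abs_nonneg _) u1.le 2
    have v2 : (n.2.1 1) ^ 2 ≤ (1 / 2) ^ 2 := by
      rw [← sq_abs]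
      exact pow_le_pow_left₀ (abs_nonneg _) u2.le 2
    have v3 : ‖n.2.1‖ < 1 := by
      have := nsq n.2.1
      nlinarith [norm_nonneg n.2.1]
    have : ‖n‖ < 1 := by
      rw [Prod.norm_def, Prod.norm_def]
      refine max_lt ?_ (max_lt v3 ?_)
      · rw [Real.norm_eq_abs]; linarith
      · rw [Real.norm_eq_abs]; linarith
    linarith
  have hmain := main (η₁ 0) (η₂ 0) (η₃ 0) (η 0) (η₁ 1) (η₂ 1) (η₃ 1) (η 1) n.1 (n.2.1 0)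
    (n.2.1 1) n.2.2 g.1 (g.2.1 0) (g.2.1 1) g.2.2 (κ / 2) M (ε / 2) s (sq9 _ e1) (sq9 _ e2)
    (sq9 _ e3) (sq9 _ e4) hs (sep _ _ s12) (sep _ _ s13) (sep _ _ s23) hn' (half _ _ _ k1)
    (half _ _ _ k2) (half _ _ _ k3) (half _ _ _ k4) m0 m1 m2 m3 (half _ _ _ l1)
    (half _ _ _ l2) (half _ _ _ l3)
  rw [qBc, abs_mul, abs_two]
  have e5 : 200000 * (M * (κ / 2) + ε / 2) / s ^ 3 * 2 = 200000 * (M * κ + ε) / s ^ 3 := by ring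
  have hκ : 0 ≤ κ := (abs_nonneg _).trans k1
  have hε : 0 ≤ ε := (abs_nonneg _).trans l1
  have hM : 0 ≤ M := (abs_nonneg _).trans m0
  have e6 : 200000 * (M * κ + ε) / s ^ 3 ≤ 400000 * (M * κ + ε) / s ^ 3 := by
    gcongr
    norm_num
  linarith

end Pool.Agent.H7.EL
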